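import Pool.Agent.Helper84.Kurepa.Defs
import Pool.Agent.Helper84.Kurepa.Final

set_option autoImplicit false

namespace Pool.Agent.Results.MP_177a3e_lc.EverywhereLargeImage

open Pool.Agent.Helper84.Kurepa

/-- **Main result.** In ZFC: some `ω₂`-Kurepa tree `T` has `[T]` a continuous image of the
generalized Baire space of `ω₂` if and only if some everywhere large `ω₂`-Kurepa tree has this
property. -/
theorem result :
    (∃ T : ∀ a : W, Set (Set.Iio a → W), IsKurepa T ∧ IsContinuousImage (branches T)) ↔
      ∃ T : ∀ a : W, Set (Set.Iio a → W),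
        IsKurepa T ∧ EverywhereLarge T ∧ IsContinuousImage (branches T) := by
  refine ⟨?_, fun ⟨T, h1, _, h3⟩ => ⟨T, h1, h3⟩⟩
  rintro ⟨T, ⟨-, -, hlev, hbr⟩, him⟩
  exact ⟨newTree T, newTree_isKurepa hlev hbr, newTree_large hlev, newTree_image hlev hbr him⟩

end Pool.Agent.Results.MP_177a3e_lc.EverywhereLargeImage
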